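import Mathlib
import Pool.Agent.H33.CpetCert

set_option autoImplicit false
set_option linter.unusedSectionVars false

namespace Pool.Agent.Results.MP_d6ea2c_co.TwoDegreeFour

open Finset

/-- `P` is a connected partition of `T`: every block induces a connected subgraph. -/
def IsConnectedPartition {n : ℕ} (T : SimpleGraph (Fin n))
    (P : Finpartition (univ : Finset (Fin n))) : Prop :=
  ∀ B ∈ P.parts, (T.induce (B : Set (Fin n))).Connected

/-- The multiset of the sizes of the blocks of a set partition. -/
def blockSizes {n : ℕ} (P : Finpartition (univ : Finset (Fin n))) : Multiset ℕ :=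
  P.parts.val.map Finset.card

/-- `T` is a tree such that every integer partition of its number of vertices is the type of a
connected partition of `T`. -/
def IsCPETTree {n : ℕ} (T : SimpleGraph (Fin n)) : Prop :=
  T.IsTree ∧ ∀ p : Nat.Partition n, ∃ P : Finpartition (univ : Finset (Fin n)),
    IsConnectedPartition T P ∧ blockSizes P = p.parts

/-! ### realizable multisets -/

section general

variable {V : Type} [DecidableEq V] {G : SimpleGraph V}

def Realz (G : SimpleGraph V) (W : Multiset V) (M : Multiset ℕ) : Prop :=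
  ∃ Bs : Multiset (Finset V), (∀ B ∈ Bs, (G.induce (B : Set V)).Connected) ∧
    Bs.map Finset.card = M ∧ (Bs.map Finset.val).sum = W

lemma Realz.add {W1 W2 : Multiset V} {M1 M2 : Multiset ℕ} (h1 : Realz G W1 M1)
    (h2 : Realz G W2 M2) : Realz G (W1 + W2) (M1 + M2) := by
  obtain ⟨B1, a1, b1, c1⟩ := h1
  obtain ⟨B2, a2, b2, c2⟩ := h2
  refine ⟨B1 + B2, ?_, ?_, ?_⟩
  · intro B hB
    rcases Multiset.mem_add.1 hB with h | h
    · exact a1 B h
    · exact a2 B h
  · rw [Multiset.map_add, b1, b2]
  · rw [Multiset.map_add, Multiset.sum_add, c1, c2]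

lemma Realz.zero : Realz G 0 0 := ⟨0, by simp, by simp, by simp⟩

lemma Realz.single (B : Finset V) (h : (G.induce (B : Set V)).Connected) :
    Realz G B.val {B.card} := ⟨{B}, by simpa using h, by simp, by simp⟩

/-- splitting off one vertex -/
lemma Realz.split {W : Multiset V} {M : Multiset ℕ} {s : ℕ} (hs : 1 ≤ s)
    (h : Realz G W ((s + 1) ::ₘ M)) : Realz G W (1 ::ₘ s ::ₘ M) := by
  obtain ⟨Bs, hc, hm, hw⟩ := h
  have hmem : s + 1 ∈ Bs.map Finset.card := by rw [hm]; exact Multiset.mem_cons_self _ _
  obtain ⟨B, hB, hBc⟩ := Multiset.mem_map.1 hmem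
  obtain ⟨Bs', rfl⟩ := Multiset.exists_cons_of_mem hB
  rw [Multiset.map_cons, hBc, Multiset.cons_inj_right] at hm
  rw [Multiset.map_cons, Multiset.sum_cons] at hw
  have hBconn := hc B (Multiset.mem_cons_self _ _)
  have hnt : Nontrivial (B : Set V) := by
    rw [Set.nontrivial_coe_sort]
    exact Finset.one_lt_card_iff_nontrivial.1 (by omega)
  have hfin : Finite (B : Set V) := Finset.finite_toSet B
  obtain ⟨x, hx⟩ := hBconn.exists_connected_induce_compl_singleton_of_finite_nontrivial
  have hxB : (x : V) ∈ B := x.2
  have hconn' : (G.induce ((B.erase (x : V) : Finset V) : Set V)).Connected := by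
    let f : (({x}ᶜ : Set (B : Set V))) ≃ ((B.erase (x : V) : Finset V) : Set V) :=
      { toFun := fun y => ⟨(y : (B : Set V)), by
          have h1 : (y : (B : Set V)) ≠ x := y.2
          have h2 : ((y : (B : Set V)) : V) ∈ B := (y : (B : Set V)).2
          simp only [Finset.coe_erase, Set.mem_sdiff, Finset.mem_coe, Set.mem_singleton_iff]
          exact ⟨h2, fun h => h1 (Subtype.ext h)⟩⟩
        invFun := fun y => ⟨⟨y, by
          have := y.2
          simp only [Finset.coe_erase, Set.mem_sdiff, Finset.mem_coe, Set.mem_singleton_iff] at this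
          exact this.1⟩, by
          have := y.2
          simp only [Finset.coe_erase, Set.mem_sdiff, Finset.mem_coe, Set.mem_singleton_iff] at this
          intro h
          exact this.2 (congrArg Subtype.val (Set.mem_singleton_iff.1 h))⟩
        left_inv := fun y => by rfl
        right_inv := fun y => by rfl }
    let e : ((G.induce (B : Set V)).induce ({x}ᶜ : Set (B : Set V))) ≃g
        (G.induce ((B.erase (x : V) : Finset V) : Set V)) :=
      { toEquiv := f, map_rel_iff' := by intro a b; rfl }
    exact e.connected_iff.1 hx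
  have hsing : (G.induce (({(x : V)} : Finset V) : Set V)).Connected := by
    rw [Finset.coe_singleton]
    exact SimpleGraph.Connected.mk (SimpleGraph.Preconnected.of_subsingleton)
  refine ⟨{(x : V)} ::ₘ B.erase (x : V) ::ₘ Bs', ?_, ?_, ?_⟩
  · intro C hC
    rcases Multiset.mem_cons.1 hC with rfl | hC
    · exact hsing
    rcases Multiset.mem_cons.1 hC with rfl | hC
    · exact hconn'
    · exact hc C (Multiset.mem_cons_of_mem hC)
  · rw [Multiset.map_cons, Multiset.map_cons, hm, Finset.card_singleton,
      Finset.card_erase_of_mem hxB, hBc]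
    rfl
  · rw [Multiset.map_cons, Multiset.map_cons, Multiset.sum_cons, Multiset.sum_cons, ← hw,
      ← add_assoc]
    congr 1
    rw [Finset.erase_val, Finset.singleton_val, Multiset.singleton_add]
    exact Multiset.cons_erase hxB

/-- consecutive positions -/
def blk (φ : ℕ → V) (p q : ℕ) : Finset V := (Finset.Ico p q).image φ

structure Layout (G : SimpleGraph V) (φ : ℕ → V) (N : ℕ) (par : ℕ → ℕ) (ok : ℕ → Prop) :
    Prop where
  inj : ∀ i j, i < N → j < N → φ i = φ j → i = j
  lt : ∀ j, 0 < j → j < N → par j < j
  adj : ∀ j, 0 < j → j < N → G.Adj (φ (par j)) (φ j)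
  ge : ∀ p j, ok p → p < j → j < N → p ≤ par j

variable {φ : ℕ → V} {N : ℕ} {par : ℕ → ℕ} {ok : ℕ → Prop}

lemma blk_card (L : Layout G φ N par ok) {p q : ℕ} (hq : q ≤ N) :
    (blk φ p q).card = q - p := by
  unfold blk
  rw [Finset.card_image_of_injOn, Nat.card_Ico]
  intro i hi j hj h
  simp only [Finset.coe_Ico, Set.mem_Ico] at hi hj
  exact L.inj i j (by omega) (by omega) h

lemma blk_val (L : Layout G φ N par ok) {p q r : ℕ} (hpq : p ≤ q) (hqr : q ≤ r) (hr : r ≤ N) :
    (blk φ p r).val = (blk φ p q).val + (blk φ q r).val := by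
  have key : ∀ a b, b ≤ N → (blk φ a b).val = (Multiset.Ico a b).map φ := by
    intro a b hb
    unfold blk
    rw [Finset.image_val_of_injOn]
    · rfl
    · intro i hi j hj h
      simp only [Finset.coe_Ico, Set.mem_Ico] at hi hj
      exact L.inj i j (by omega) (by omega) h
  rw [key p r hr, key p q (by omega), key q r hr, ← Multiset.map_add,
    Multiset.Ico_add_Ico_eq_Ico hpq hqr]

lemma blk_conn (L : Layout G φ N par ok) {p q : ℕ} (hpq : p < q) (hq : q ≤ N) (hp : ok p) :
    (G.induce ((blk φ p q : Finset V) : Set V)).Connected := by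
  induction q, hpq using Nat.le_induction with
  | base =>
    have : ((blk φ p (p + 1) : Finset V) : Set V) = {φ p} := by
      unfold blk
      simp
    rw [this]
    exact SimpleGraph.Connected.mk (SimpleGraph.Preconnected.of_subsingleton)
  | succ q hpq ih =>
    have ih := ih (by omega)
    have h1 : ((blk φ p (q + 1) : Finset V) : Set V) = (blk φ p q : Set V) ∪ {φ q} := by
      unfold blk
      ext x
      simp only [Finset.coe_image, Finset.coe_Ico, Set.mem_image, Set.mem_Ico, Set.mem_union,
        Set.mem_singleton_iff]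
      constructor
      · rintro ⟨i, ⟨h1, h2⟩, rfl⟩
        rcases Nat.lt_or_ge i q with h | h
        · exact Or.inl ⟨i, ⟨h1, h⟩, rfl⟩
        · have : i = q := by omega
          exact Or.inr (by rw [this])
      · rintro (⟨i, ⟨h1, h2⟩, rfl⟩ | rfl)
        · exact ⟨i, ⟨h1, by omega⟩, rfl⟩
        · exact ⟨q, ⟨by omega, by omega⟩, rfl⟩
    rw [h1]
    refine SimpleGraph.connected_induce_union (v := φ (par q)) (w := φ q) ih.preconnected
      SimpleGraph.Preconnected.of_subsingleton ?_ (Set.mem_singleton _)
      (L.adj q (by omega) (by omega))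
    unfold blk
    simp only [Finset.coe_image, Finset.coe_Ico, Set.mem_image, Set.mem_Ico]
    exact ⟨par q, ⟨L.ge p q hp (by omega) (by omega), L.lt q (by omega) (by omega)⟩, rfl⟩

lemma blk_self (p : ℕ) : blk φ p p = ∅ := by
  unfold blk; simp

lemma one_block (L : Layout G φ N par ok) {p s : ℕ} (hs : 0 < s) (hq : p + s ≤ N) (hp : ok p) :
    Realz G (blk φ p (p + s)).val {s} := by
  have := Realz.single (G := G) (blk φ p (p + s)) (blk_conn L (by omega) hq hp)
  rwa [blk_card L hq, Nat.add_sub_cancel_left] at this

lemma zone (L : Layout G φ N par ok) (A : Multiset ℕ) : ∀ p, (∀ a ∈ A, 0 < a) →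
    (∀ x, p ≤ x → x < p + A.sum → ok x) → p + A.sum ≤ N →
    Realz G (blk φ p (p + A.sum)).val A := by
  induction A using Multiset.induction_on with
  | empty =>
    intro p _ _ _
    simp only [Multiset.sum_zero, add_zero, blk_self, Finset.empty_val]
    exact Realz.zero
  | cons a A ih =>
    intro p hpos hok hN
    rw [Multiset.sum_cons] at hok hN ⊢
    have ha : 0 < a := hpos a (Multiset.mem_cons_self _ _)
    have h1 := one_block L ha (p := p) (by omega) (hok p le_rfl (by omega))
    have h2 := ih (p + a) (fun b hb => hpos b (Multiset.mem_cons_of_mem hb))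
      (fun x hx1 hx2 => hok x (by omega) (by omega)) (by omega)
    have h3 := h1.add h2
    rw [← blk_val L (by omega) (by omega) (by omega), Multiset.singleton_add] at h3
    rwa [← add_assoc]

/-- assembling the five zones -/
lemma assemble (L : Layout G φ N par ok) (A B D : Multiset ℕ) (s t : ℕ)
    (hA : ∀ a ∈ A, 0 < a) (hB : ∀ a ∈ B, 0 < a) (hD : ∀ a ∈ D, 0 < a) (hs : 0 < s) (ht : 0 < t)
    (hN : A.sum + s + B.sum + t + D.sum = N)
    (okA : ∀ x, x ≤ A.sum → ok x)
    (okB : ∀ x, A.sum + s ≤ x → x ≤ A.sum + s + B.sum → ok x)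
    (okD : ∀ x, A.sum + s + B.sum + t ≤ x → x < N → ok x) :
    Realz G (blk φ 0 N).val (A + {s} + B + {t} + D) := by
  have h1 := zone L A 0 hA (fun x _ h => okA x (by omega)) (by omega)
  have h2 := one_block L hs (p := A.sum) (by omega) (okA _ le_rfl)
  have h3 := zone L B (A.sum + s) hB (fun x h h' => okB x h (by omega)) (by omega)
  have h4 := one_block L ht (p := A.sum + s + B.sum) (by omega) (okB _ (by omega) le_rfl)
  have h5 := zone L D (A.sum + s + B.sum + t) hD (fun x h h' => okD x h (by omega)) (by omega)
  rw [zero_add] at h1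
  have h := (((h1.add h2).add h3).add h4).add h5
  rw [← blk_val L (by omega) (by omega) (by omega), ← blk_val L (by omega) (by omega) (by omega),
    ← blk_val L (by omega) (by omega) (by omega), ← blk_val L (by omega) (by omega) (by omega),
    hN] at h
  exact h

lemma assemble' (L : Layout G φ N par ok) (A D : Multiset ℕ) (s : ℕ)
    (hA : ∀ a ∈ A, 0 < a) (hD : ∀ a ∈ D, 0 < a) (hs : 0 < s)
    (hN : A.sum + s + D.sum = N)
    (okA : ∀ x, x ≤ A.sum → ok x)
    (okD : ∀ x, A.sum + s ≤ x → x < N → ok x) :
    Realz G (blk φ 0 N).val (A + {s} + D) := by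
  have h1 := zone L A 0 hA (fun x _ h => okA x (by omega)) (by omega)
  have h2 := one_block L hs (p := A.sum) (by omega) (okA _ le_rfl)
  have h5 := zone L D (A.sum + s) hD (fun x h h' => okD x h (by omega)) (by omega)
  rw [zero_add] at h1
  have h := (h1.add h2).add h5
  rw [← blk_val L (by omega) (by omega) (by omega), ← blk_val L (by omega) (by omega) (by omega),
    hN] at h
  exact h

end general

/-! ### the tree -/

/-- the parent of a vertex -/
def par (j : ℕ) : ℕ :=
  if j = 14 ∨ j = 16 then 12 else if j = 30 ∨ j = 31 then 28 else j - 1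

/-- the tree on 61 vertices -/
def T : SimpleGraph (Fin 61) where
  Adj i j := (0 < (i : ℕ) ∧ par i = j) ∨ (0 < (j : ℕ) ∧ par j = i)
  symm := ⟨fun _ _ h => Or.symm h⟩
  loopless := ⟨by
    intro i h
    have : ∀ i : ℕ, 0 < i → par i < i := by
      intro i hi
      unfold par
      split_ifs <;> omega
    rcases h with ⟨h1, h2⟩ | ⟨h1, h2⟩
    · have := this i h1; omega
    · have := this i h1; omega⟩

instance : DecidableRel T.Adj := fun i j =>
  inferInstanceAs (Decidable ((0 < (i : ℕ) ∧ par i = j) ∨ (0 < (j : ℕ) ∧ par j = i)))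

/-- first layout: all vertices in their natural order -/
def φ1 (j : ℕ) : Fin 61 := ⟨j % 61, Nat.mod_lt _ (by norm_num)⟩

/-- second layout: leaving out the vertices 14 and 15 -/
def φ2 (j : ℕ) : Fin 61 := if j < 14 then φ1 j else φ1 (j + 2)

def par2 (j : ℕ) : ℕ :=
  if j = 14 then 12 else if j = 28 ∨ j = 29 then 26 else j - 1

lemma φ1_val {j : ℕ} (h : j < 61) : ((φ1 j : Fin 61) : ℕ) = j := Nat.mod_eq_of_lt h

lemma layout1 : Layout T φ1 61 par (fun p => p ≠ 13 ∧ p ≠ 14 ∧ p ≠ 15 ∧ p ≠ 29 ∧ p ≠ 30) where
  inj i j hi hj h := by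
    have := congrArg Fin.val h
    rwa [φ1_val hi, φ1_val hj] at this
  lt j hj _ := by unfold par; split_ifs <;> omega
  adj j hj hj' := by
    right
    have hp : par j < j := by unfold par; split_ifs <;> omega
    rw [φ1_val hj', φ1_val (by omega)]
    exact ⟨hj, rfl⟩
  ge p j hp hj hj' := by
    unfold par; split_ifs <;> omega

lemma layout2 : Layout T φ2 59 par2 (fun p => p ≠ 13 ∧ p ≠ 27 ∧ p ≠ 28) where
  inj i j hi hj h := by
    have h := congrArg Fin.val h
    unfold φ2 at h
    split_ifs at h
    · rwa [φ1_val (by omega), φ1_val (by omega)] at h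
    · rw [φ1_val (by omega), φ1_val (by omega)] at h; omega
    · rw [φ1_val (by omega), φ1_val (by omega)] at h; omega
    · rw [φ1_val (by omega), φ1_val (by omega)] at h; omega
  lt j hj _ := by unfold par2; split_ifs <;> omega
  adj j hj hj' := by
    have : ∀ j : Fin 59, 0 < (j : ℕ) → T.Adj (φ2 (par2 j)) (φ2 j) := by decide +kernel
    exact this ⟨j, hj'⟩ hj
  ge p j hp hj hj' := by
    unfold par2; split_ifs <;> omega

lemma blk1_univ : (blk φ1 0 61) = univ := by
  apply Finset.eq_univ_of_card
  rw [blk_card layout1 le_rfl]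
  simp

lemma blk2_univ : (univ : Finset (Fin 61)).val =
    ({14, 15} : Finset (Fin 61)).val + (blk φ2 0 59).val := by decide +kernel

lemma conn_two : (T.induce ((({14, 15} : Finset (Fin 61))) : Set (Fin 61))).Connected := by
  have : ((({14, 15} : Finset (Fin 61))) : Set (Fin 61)) = {14, 15} := by simp
  rw [this]
  apply SimpleGraph.induce_pair_connected_of_adj
  decide +kernel

lemma T_conn : T.Connected := by
  have h := blk_conn layout1 (p := 0) (q := 61) (by norm_num) le_rfl (by norm_num)
  rw [blk1_univ, Finset.coe_univ] at h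
  exact (SimpleGraph.induceUnivIso T).connected_iff.1 h

lemma T_tree : T.IsTree := by
  rw [SimpleGraph.isTree_iff_connected_and_card]
  refine ⟨T_conn, ?_⟩
  have h1 : ∑ v, T.degree v = 120 := by decide +kernel
  rw [SimpleGraph.sum_degrees_eq_twice_card_edges] at h1
  rw [Nat.card_eq_fintype_card, ← SimpleGraph.edgeFinset_card, Nat.card_fin]
  omega

lemma realz_all : ∀ (k : ℕ) (M : Multiset ℕ), M.card = k → (∀ z ∈ M, 0 < z) → M.sum = 61 →
    Realz T (univ : Finset (Fin 61)).val M := by
  intro k
  induction k using Nat.strong_induction_on with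
  | _ k ih =>
    intro M hcard hpos hsum
    by_cases h1 : 1 ∈ M
    · obtain ⟨M', rfl⟩ := Multiset.exists_cons_of_mem h1
      have hne : M' ≠ 0 := by
        rintro rfl
        simp at hsum
      obtain ⟨s, hs⟩ := Multiset.exists_mem_of_ne_zero hne
      obtain ⟨M'', rfl⟩ := Multiset.exists_cons_of_mem hs
      have hs0 : 0 < s := hpos s (Multiset.mem_cons_of_mem hs)
      apply Realz.split hs0
      refine ih (k - 1) ?_ _ ?_ ?_ ?_
      · simp only [Multiset.card_cons] at hcard; omega
      · simp only [Multiset.card_cons] at hcard ⊢; omega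
      · intro z hz
        rcases Multiset.mem_cons.1 hz with rfl | hz
        · omega
        · exact hpos z (Multiset.mem_cons_of_mem (Multiset.mem_cons_of_mem hz))
      · simp only [Multiset.sum_cons] at hsum ⊢; omega
    · have h2 : ∀ z ∈ M, 2 ≤ z := by
        intro z hz
        have := hpos z hz
        have : z ≠ 1 := fun h => h1 (h ▸ hz)
        omega
      rcases Pool.Agent.H33.Cpet.arrange M h2 hsum with
        (⟨A, D, s, rfl, hA, hs⟩ | ⟨A, B, D, s, t, rfl, hA, hs, hB, ht⟩) |
        ⟨A, B, D, s, t, rfl, hA, hs, hB, ht⟩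
      · simp only [Multiset.sum_add, Multiset.sum_singleton] at hsum
        have := assemble' layout1 A D s
          (fun a ha => hpos a (by simp only [Multiset.mem_add]; tauto))
          (fun a ha => hpos a (by simp only [Multiset.mem_add]; tauto))
          (by omega) hsum (fun x hx => by omega) (fun x hx _ => by omega)
        rwa [blk1_univ] at this
      · simp only [Multiset.sum_add, Multiset.sum_singleton] at hsum
        have := assemble layout1 A B D s t
          (fun a ha => hpos a (by simp only [Multiset.mem_add]; tauto))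
          (fun a ha => hpos a (by simp only [Multiset.mem_add]; tauto))
          (fun a ha => hpos a (by simp only [Multiset.mem_add]; tauto))
          (by omega) (by omega) hsum (fun x hx => by omega) (fun x hx _ => by omega)
          (fun x hx _ => by omega)
        rwa [blk1_univ] at this
      · simp only [Multiset.sum_add, Multiset.sum_singleton] at hsum
        have := assemble layout2 A B D s t
          (fun a ha => hpos a (by simp only [Multiset.mem_add]; tauto))
          (fun a ha => hpos a (by simp only [Multiset.mem_add]; tauto))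
          (fun a ha => hpos a (by simp only [Multiset.mem_add]; tauto))
          (by omega) (by omega) (by omega) (fun x hx => by omega) (fun x hx _ => by omega)
          (fun x hx _ => by omega)
        have h3 := (Realz.single (G := T) ({14, 15} : Finset (Fin 61)) conn_two).add this
        rw [← blk2_univ] at h3
        exact h3

/-- turning a multiset of blocks into a `Finpartition` -/
lemma toFinpartition (M : Multiset ℕ) (h : Realz T (univ : Finset (Fin 61)).val M) :
    ∃ P : Finpartition (univ : Finset (Fin 61)),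
      IsConnectedPartition T P ∧ blockSizes P = M := by
  obtain ⟨Bs, hc, hm, hw⟩ := h
  have hne : ∀ B ∈ Bs, B.Nonempty := by
    intro B hB
    obtain ⟨⟨x, hx⟩⟩ := (hc B hB).nonempty
    exact ⟨x, hx⟩
  have hdis : ∀ B C Bs', Bs = B ::ₘ C ::ₘ Bs' → Disjoint B C := by
    intro B C Bs' h
    rw [Finset.disjoint_left]
    intro x hxB hxC
    have hnd : (univ : Finset (Fin 61)).val.Nodup := univ.nodup
    rw [← hw, h, Multiset.map_cons, Multiset.map_cons, Multiset.sum_cons, Multiset.sum_cons] at hnd
    rw [Multiset.nodup_add] at hnd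
    have := Multiset.disjoint_left.1 hnd.2.2 hxB
    exact this (Multiset.mem_add.2 (Or.inl hxC))
  have hnodup : Bs.Nodup := by
    rw [Multiset.nodup_iff_ne_cons_cons]
    intro B Bs' h
    have h1 := hdis B B Bs' h
    rw [disjoint_self] at h1
    have h2 := hne B (by rw [h]; exact Multiset.mem_cons_self _ _)
    rw [h1] at h2
    exact Finset.not_nonempty_empty h2
  let P : Finpartition (univ : Finset (Fin 61)) :=
    { parts := ⟨Bs, hnodup⟩
      supIndep := by
        rw [Finset.supIndep_iff_pairwiseDisjoint]
        intro B hB C hC hBC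
        have hB : B ∈ Bs := hB
        have hC : C ∈ Bs := hC
        obtain ⟨Bs', h⟩ := Multiset.exists_cons_of_mem hB
        have hC' : C ∈ Bs' := by
          rw [h] at hC
          rcases Multiset.mem_cons.1 hC with h' | h'
          · exact absurd h'.symm hBC
          · exact h'
        obtain ⟨Bs'', h'⟩ := Multiset.exists_cons_of_mem hC'
        exact hdis B C Bs'' (by rw [h, h'])
      sup_parts := by
        rw [Finset.eq_univ_iff_forall]
        intro x
        rw [Finset.mem_sup]
        have : x ∈ (univ : Finset (Fin 61)).val := Finset.mem_univ x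
        rw [← hw] at this
        obtain ⟨b, hb, hx⟩ := Multiset.mem_join.1 this
        obtain ⟨B, hB, rfl⟩ := Multiset.mem_map.1 hb
        exact ⟨B, hB, hx⟩
      bot_notMem := by
        intro h
        exact Finset.not_nonempty_empty (hne _ h) }
  exact ⟨P, fun B hB => hc B hB, hm⟩

/-- There is a CPET tree (on 61 vertices) of maximum degree 4 with two vertices of degree 4. -/
theorem result : ∃ (T : SimpleGraph (Fin 61)) (_ : DecidableRel T.Adj),
    IsCPETTree T ∧ T.maxDegree = 4 ∧
      ∃ v w : Fin 61, v ≠ w ∧ T.degree v = 4 ∧ T.degree w = 4 := by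
  refine ⟨T, inferInstance, ⟨T_tree, fun p => ?_⟩, ?_, 12, 28, by decide, ?_, ?_⟩
  · exact toFinpartition p.parts (realz_all _ p.parts rfl (fun z hz => p.parts_pos hz) p.parts_sum)
  · apply le_antisymm
    · apply SimpleGraph.maxDegree_le_of_forall_degree_le
      decide +kernel
    · have : T.degree 12 = 4 := by decide +kernel
      rw [← this]
      exact T.degree_le_maxDegree 12
  · decide +kernel
  · decide +kernel

end Pool.Agent.Results.MP_d6ea2c_co.TwoDegreeFour
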